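import Pool.Agent.H33.WcsBase
import Pool.Agent.H33.WcsLarge
import Pool.Agent.H33.WcsFifth

set_option autoImplicit false

/-!
The classification of weakly consecutive permutations.

The definitions used in the statement are in `Pool/Agent/H33/WcsDefs.lean`.
-/

namespace Pool.Agent.Results.MP_52d8fd_co.Classification

open Pool.Agent.H33.Wcs

/-- every WCS has a derivation -/
theorem complete {k : ℕ} (hk : 1 ≤ k) {s : List ℕ} (h : IsWCS k s) :
    ∃ T ops, IsDerivation k T ops s := by
  rcases Nat.lt_or_ge k 42 with h1 | h1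
  · obtain ⟨T, ops, _, h2⟩ := complete_small hk (by omega) h
    exact ⟨T, ops, h2⟩
  · exact complete_large h1 (R_holds _ (by omega)) (R_holds _ (by omega)) h

/-- **Main theorem.**
(1) For every `k ≥ 1`, every WCS of length `k` has a derivation from one of the five starting
sequences.
(2) For every `k ≥ 12`, two reduced derivations of the same WCS of length `k` have the same
starting sequence and the same rule applications up to the order.
(3) The four starting sequences of the problem suffice for the length `k` if and only if it is not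
the case that `k ≥ 12` and `k = 2p` where `p`, `p + 2` and `2p + 1` are all prime. -/
theorem result :
    (∀ k : ℕ, 1 ≤ k → ∀ s : List ℕ, IsWCS k s → ∃ T ops, IsDerivation k T ops s) ∧
    (∀ k : ℕ, 12 ≤ k → ∀ (s : List ℕ) (T T' : Start) (ops ops' : List Move),
      IsDerivation k T ops s → IsDerivation k T' ops' s → ops.Nodup → ops'.Nodup →
        T = T' ∧ ops.Perm ops') ∧
    (∀ k : ℕ, 1 ≤ k →
      ((∀ s : List ℕ, IsWCS k s →
          ∃ T ops, T ≠ .twiceTwinPrimeInversion ∧ IsDerivation k T ops s) ↔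
        ¬ (12 ≤ k ∧ ∃ p : ℕ, p.Prime ∧ (p + 2).Prime ∧ (2 * p + 1).Prime ∧ k = 2 * p))) := by
  refine ⟨fun k hk s h => complete hk h, fun k hk s T T' ops ops' h h' hnd hnd' =>
    h.unique hk h' hnd hnd', fun k hk => ⟨?_, ?_⟩⟩
  · rintro h ⟨h12, p, hp, hp2, hp3, hkp⟩
    have hseq : Start.IsSeq k _ .twiceTwinPrimeInversion := ⟨p, hp, hp2, hp3, hkp, rfl⟩
    obtain ⟨T, ops, hT, hd⟩ := h _ (fifth_isWCS hseq)
    exact hT (hd.kind h12 ⟨_, hseq, Derives.start⟩)
  · intro h s hs
    rcases Nat.lt_or_ge k 12 with h1 | h1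
    · obtain ⟨T, ops, h2, h3⟩ := complete_small hk (by omega) hs
      exact ⟨T, ops, h2 (by omega), h3⟩
    · obtain ⟨T, ops, h2⟩ := complete hk hs
      refine ⟨T, ops, ?_, h2⟩
      rintro rfl
      obtain ⟨s₀, ⟨p, hp, hp2, hp3, hkp, _⟩, _⟩ := h2
      exact h ⟨h1, p, hp, hp2, hp3, hkp⟩

end Pool.Agent.Results.MP_52d8fd_co.Classification
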